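import Pool.Agent.COV.StmtsB

/-!
# Row HGR of squad COV (MP_160b6c_nt): `H` is a group
-/

set_option autoImplicit false

namespace Pool.Agent.COV.H25

open Polynomial Pool.Agent.KDT.Z Pool.Agent.COV

section base

variable {k U : Type} [Field k] [Field U] [Algebra k U]

theorem pA_emb (t : Fin 4 → k) : pA (emb U t) = (pA t).map (algebraMap k U) := by
  simp [pA, emb]

theorem pB_emb (t : Fin 4 → k) : pB (emb U t) = (pB t).map (algebraMap k U) := by
  simp [pB, emb]

theorem on_emb {f : k[X]} {g : U[X]} (hg : g = f.map (algebraMap k U)) {t : Fin 4 → k}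
    (h : On f t) : On g (emb U t) := by
  have h1 := Polynomial.map_dvd (algebraMap k U) h
  unfold On
  rw [pA_emb, pB_emb, hg]
  simpa using h1

theorem aeval_emb (t : Fin 4 → k) (G : MvPolynomial (Fin 4) k) :
    MvPolynomial.aeval (emb U t) G = algebraMap k U (MvPolynomial.eval t G) := by
  have h1 : MvPolynomial.aeval (fun i => algebraMap k U (t i)) G
      = algebraMap k U (MvPolynomial.aeval t G) :=
    MvPolynomial.aeval_algebraMap_apply (B := U) t G
  rw [MvPolynomial.aeval_eq_eval] at h1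
  exact h1

theorem vv_emb {q : Fin 4 → U} {t : Fin 4 → k} (h : Spc q t) : VV k q (emb U t) := by
  intro G hG
  rw [aeval_emb, h G hG, map_zero]

theorem aeval_sig (σ : U ≃ₐ[k] U) (y : Fin 4 → U) (G : MvPolynomial (Fin 4) k) :
    MvPolynomial.aeval (fun i => σ (y i)) G = σ (MvPolynomial.aeval y G) := by
  have h1 := MvPolynomial.comp_aeval_apply (R := k) (f := y) (σ : U →ₐ[k] U) G
  simpa using h1.symm

theorem vv_sig {q y : Fin 4 → U} (σ : U ≃ₐ[k] U) (h : VV k q y) :
    VV k q (fun i => σ (y i)) := by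
  intro G hG
  rw [aeval_sig, h G hG, map_zero]

theorem vv_self (q : Fin 4 → U) : VV k q q := fun _ hG => hG

theorem tht_act {f : k[X]} {g : U[X]} {J : Type} [AddCommGroup J] {th : Pt g → J}
    {cl : (Fin 4 → U) → J} {act : (U ≃ₐ[k] U) → J →+ J} {Jk : AddSubgroup J}
    (hg : g = f.map (algebraMap k U)) (hJ : JK f g J th cl act Jk) (σ : U ≃ₐ[k] U) {c : J}
    (h : Tht th c) : Tht th (act σ c) := by
  rcases h with h | ⟨z, h⟩
  · exact Or.inl (by rw [h, map_zero])
  · refine Or.inr ⟨⟨σ z.a, σ z.b, ?_⟩, ?_⟩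
    · have h1 : g.map (σ : U →+* U) = g := by
        rw [hg, Polynomial.map_map]
        congr 1
        ext x
        simp
      have h2 : σ (g.eval z.a) = g.eval (σ z.a) := by
        have h3 := Polynomial.eval_map_apply (σ : U →+* U) z.a (p := g)
        rw [h1] at h3
        simpa using h3.symm
      rw [← map_pow, z.on, h2]
    · rw [h]
      exact hJ.act_th σ z _ rfl rfl

end base

theorem hgr (h1 : HsaStmt) (h2 : HadStmt) (h3 : HreStmt) (h4 : HngStmt) (h5 : GnlStmt) :
    HgrStmt := by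
  intro k U _ _ _ f g J _ th cl act Jk q H0 t0 hx
  have hg := hx.env.gm
  have hJ := hx.jk
  have hG := h5 U g J th cl hJ.toJG H0
  obtain ⟨-, hshift, -, -⟩ := hG
  have ht0 : cl (emb U t0) ∈ Jk := (hJ.mem_k _).2 (Or.inr (Or.inr ⟨t0, hx.ot, on_emb hg hx.ot, rfl⟩))
  have hH0k : ∀ h ∈ H0, h ∈ Jk := fun h hh => ((hx.h0 h).1 hh).1
  -- the generic point is not constant
  have hq : cl q ∉ Jk := by
    intro hc
    rcases (hJ.mem_k _).1 hc with h | ⟨z, -, h⟩ | ⟨t, -, ht, h⟩
    · exact hJ.cl_ne q hx.on h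
    · exact hJ.cl_th q z hx.on h
    · have e := hJ.cl_inj q (emb U t) hx.on ht h
      exact hx.gn ⟨⟨t 0, by rw [e]; rfl⟩, ⟨t 1, by rw [e]; rfl⟩⟩
  -- elements of `H0`
  have hH0 : ∀ c ∈ H0, HH g th cl q H0 t0 c := by
    intro c hc
    have a1 := h1 k U f g J th cl act Jk q H0 t0 hx
    have a2 := hshift _ c hc a1
    obtain ⟨C, hC⟩ := a2
    refine ⟨C, fun h hh hx' => ?_⟩
    obtain ⟨t, b1, b2, b3⟩ := hC h hh hx'
    refine ⟨emb U t, on_emb hg b1, vv_emb b2, ?_⟩
    rw [b3]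
    abel
  have hadd : ∀ c c' : J, HH g th cl q H0 t0 c → HH g th cl q H0 t0 c' →
      HH g th cl q H0 t0 (c + c') := h2 k U f g J th cl act Jk q H0 t0 hx
  -- automorphisms
  have hact : ∀ (σ : U ≃ₐ[k] U) (c : J), HH g th cl q H0 t0 c → HH g th cl q H0 t0 (act σ c) := by
    classical
    rintro σ c ⟨C, hC⟩
    refine ⟨C.image (act σ), fun h hh hx' => ?_⟩
    have hfix : act σ h = h := hJ.act_k σ h (hH0k h hh)
    have a1 : ∀ x ∈ C, ¬ Tht th (x + h) := by
      intro x hxC hT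
      have b1 := tht_act hg hJ σ hT
      rw [map_add, hfix] at b1
      exact hx' _ (Finset.mem_image_of_mem _ hxC) b1
    obtain ⟨y, b1, b2, b3⟩ := hC h hh a1
    obtain ⟨c1, c2⟩ := hJ.act_cl σ y b1
    refine ⟨fun i => σ (y i), c1, vv_sig σ b2, ?_⟩
    rw [← c2, b3, map_add, map_add, hfix, hJ.act_k σ _ ht0]
  -- the element `c₁`
  have hc1 : HH g th cl q H0 t0 (cl q - cl (emb U t0)) := by
    refine ⟨∅, fun h hh _ => ?_⟩
    obtain ⟨-, τ, hτ⟩ := (hx.h0 h).1 hh
    obtain ⟨c1, c2⟩ := hJ.act_cl τ q hx.on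
    refine ⟨fun i => τ (q i), c1, vv_sig τ (vv_self q), ?_⟩
    rw [← c2, hτ]
    abel
  have hc1k : cl q - cl (emb U t0) ∉ Jk := by
    intro hc
    have := Jk.add_mem hc ht0
    rw [sub_add_cancel] at this
    exact hq this
  -- negation
  have hneg1 : ∀ c : J, HH g th cl q H0 t0 c → c ∉ Jk → HH g th cl q H0 t0 (-c) := by
    intro c hc hck
    obtain ⟨σ, h, hh, e⟩ := h3 k U f g J th cl act Jk q H0 t0 hx c hc hck
    have hb : HH g th cl q H0 t0 (cl (emb U t0) + h - cl q) := by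
      have a1 := h4 k U f g J th cl act Jk q H0 t0 hx
      obtain ⟨C, hC⟩ := hshift _ h hh a1
      refine ⟨C, fun h' hh' hx' => ?_⟩
      obtain ⟨y, b1, b2, b3⟩ := hC h' hh' hx'
      refine ⟨y, b1, b2, ?_⟩
      rw [b3]
      abel
    have hb' := hact σ _ hb
    have e2 : act σ (cl (emb U t0) + h - cl q) = -c := by
      rw [map_sub, map_add, hJ.act_k σ _ ht0, hJ.act_k σ h (hH0k h hh), e]
      abel
    rwa [e2] at hb'
  have hneg : ∀ c : J, HH g th cl q H0 t0 c → HH g th cl q H0 t0 (-c) := by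
    intro c hc
    by_cases hck : c ∈ Jk
    · have a1 : c + (cl q - cl (emb U t0)) ∉ Jk := by
        intro h
        exact hc1k ((Jk.add_mem_cancel_left hck).1 h)
      have a2 := hneg1 _ (hadd _ _ hc hc1) a1
      have a3 := hadd _ _ a2 hc1
      have e : -(c + (cl q - cl (emb U t0))) + (cl q - cl (emb U t0)) = -c := by abel
      rwa [e] at a3
    · exact hneg1 c hc hck
  refine ⟨{ carrier := {c | HH g th cl q H0 t0 c}
            zero_mem' := hH0 0 H0.zero_mem
            add_mem' := fun {a b} ha hb => hadd a b ha hb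
            neg_mem' := fun {a} ha => hneg a ha }, fun c => Iff.rfl, fun σ c hc => hact σ c hc,
    fun c hc => hH0 c hc, hc1, hq⟩

end Pool.Agent.COV.H25
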