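import Pool.Agent.COV.StmtsC

/-!
# Squad COV, row LI8: lines, sextics, all number fields (copy of `Pool/Agent/Helper34_TTC/LI7.lean`
of helper34 with `Good8`, `Fam8Stmt`)
-/

set_option autoImplicit false

namespace Pool.Agent.COV.H25

open Polynomial NumberField H58Q Pool.Agent.SZT Pool.Agent.KDT Pool.Agent.TTC

theorem totalDegree_map_le8 {σ R S : Type} [CommRing R] [CommRing S] (f : R →+* S)
    (p : MvPolynomial σ R) : (p.map f).totalDegree ≤ p.totalDegree :=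
  Finset.sup_mono (MvPolynomial.support_map_subset f p)

theorem lin8 (hnat : Na6Stmt) (hna7 : Na7Stmt) (hsb1 : Sb1Stmt) (hsb2 : Sb2Stmt) (hdir : DirStmt)
    (hndg : NdgStmt) (hmdg : Md7Stmt) (hlsz : LszStmt) (hfam : Fam8Stmt) :
    Lin8Stmt := by
  intro d k m δ hδ
  obtain ⟨A, hA1, hA⟩ := hlsz k m (2 * (24 * k + 1)) (by omega)
  have hApos : (0 : ℝ) < A := by exact_mod_cast hA1
  obtain ⟨B, C1, hC1, hF⟩ := hfam d k (δ / A) (div_pos hδ hApos)
  refine ⟨B, 24 * k + 1, 24 * k * (24 * k), C1 * (A : ℝ) ^ (δ / A), by positivity, by omega, ?_⟩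
  intro H F i₀ hH hS hnod
  obtain ⟨⟨t₁, ht₁⟩, t₀, ht₀, j, hj, n, hn, ht₀'⟩ := hnod
  obtain ⟨sb1, sb2, sb3, sb4, sb5⟩ := hsb1
  -- evaluation of the two invariants
  have hdr : ∀ t : Fin (m + 1) → ℂ, d6 (fun i => MvPolynomial.aeval t (F i)) =
      MvPolynomial.eval t ((d6 F).map (Int.castRingHom ℂ)) := by
    intro t
    rw [sb4 m (d6 F) t]
    exact (hnat _ _ (MvPolynomial.aeval t : MvPolynomial (Fin (m + 1)) ℤ →ₐ[ℤ] ℂ).toRingHom
      F).2.1
  have her : ∀ t : Fin (m + 1) → ℂ, e7 j n (fun i => MvPolynomial.aeval t (F i)) =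
      MvPolynomial.eval t ((e7 j n F).map (Int.castRingHom ℂ)) := by
    intro t
    rw [sb4 m (e7 j n F) t]
    exact hna7 _ _ (MvPolynomial.aeval t : MvPolynomial (Fin (m + 1)) ℤ →ₐ[ℤ] ℂ).toRingHom
      F j n
  obtain ⟨hmd, hme⟩ := hmdg m k F (fun i => (hS i).1)
  set P : MvPolynomial (Fin (m + 1)) ℂ := (d6 F).map (Int.castRingHom ℂ) with hP
  have hP0 : P ≠ 0 := by
    intro h0
    rw [hdr, h0, map_zero] at ht₁
    exact ht₁ rfl
  have hN : P.totalDegree ≤ 24 * k := (totalDegree_map_le8 _ _).trans hmd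
  obtain ⟨a, ha, l, hl, hcoef⟩ := hdir m P.totalDegree P i₀ hP0 rfl
  set E0 : MvPolynomial (Fin (m + 1)) ℂ := (e7 j n F).map (Int.castRingHom ℂ) with hE0
  have hNE : E0.totalDegree ≤ 24 * k := (totalDegree_map_le8 _ _).trans (hme j n)
  have hTD := hsb2 m P.totalDegree i₀ a P le_rfl
  have hTE := hsb2 m (24 * k) i₀ a E0 hNE
  have hpt := sb5 m i₀ a ℂ t₀
  have hD0 : ev (fun j => t₀ (i₀.succAbove j) - (a j : ℂ) * t₀ i₀) (t₀ i₀) (sub i₀ a P) = 0 := by
    rw [sb3, hpt, ← hdr]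
    exact ht₀
  have hE1 : ev (fun j => t₀ (i₀.succAbove j) - (a j : ℂ) * t₀ i₀) (t₀ i₀) (sub i₀ a E0)
      ≠ 0 := by
    rw [sb3, hpt, ← her]
    exact ht₀'
  obtain ⟨R, hR0, hRd, hR⟩ := hndg m P.totalDegree (24 * k) (sub i₀ a P) (sub i₀ a E0) l _ _ hl
    hcoef hTD hTE hD0 hE1
  refine ⟨a, R, fun i => by have := ha i; omega, hR0,
    hRd.trans (Nat.mul_le_mul_right _ hN), ?_⟩
  intro b hb hRb
  -- the family on the line
  have hG2 : ∀ (s : ℂ), (fun i => aeval s ((sub i₀ a (F i)).map (MvPolynomial.eval b))) =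
      fun i => MvPolynomial.aeval (pt i₀ a s fun j => ((b j : ℤ) : ℂ)) (F i) := by
    intro s
    funext i
    exact sb2 m i₀ a (F i) b s
  have hsiz : ∀ i, Siz k ((A * H ^ A : ℕ) : ℤ) ((sub i₀ a (F i)).map (MvPolynomial.eval b)) := by
    intro i
    have h1 := hA H i₀ a b (F i) hH (fun j => by have := ha j; omega)
      (fun j => (hb j).trans (le_of_eq (by push_cast; ring))) (hS i)
    have e : ((A * H ^ A : ℕ) : ℤ) = (A : ℤ) * (H : ℤ) ^ A := by push_cast; ring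
    rw [e]
    exact h1
  have hH1 : 1 ≤ A * H ^ A := Nat.one_le_iff_ne_zero.2
    (Nat.mul_ne_zero (by omega) (pow_ne_zero _ (by omega)))
  have hfam2 := hF (A * H ^ A) (fun i => (sub i₀ a (F i)).map (MvPolynomial.eval b)) hH1 hsiz
    (by
      by_contra hcon
      push Not at hcon
      have h0 : (sub i₀ a P).map (MvPolynomial.eval fun j => ((b j : ℤ) : ℂ)) = 0 := by
        apply Polynomial.funext
        intro s
        have h1 := hcon s
        rw [hG2 s, hdr, ← sb3] at h1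
        rw [eval_zero]
        exact h1
      have h2 := congrArg (fun p => coeff p P.totalDegree) h0
      simp only [coeff_map, hcoef, MvPolynomial.eval_C, coeff_zero] at h2
      exact hl h2)
    (by
      obtain ⟨s, hs1, hs2⟩ := hR _ hRb
      refine ⟨s, ?_, j, hj, n, hn, ?_⟩
      · rw [hG2 s, hdr, ← sb3]
        exact hs1
      · rw [hG2 s, her, ← sb3]
        exact hs2)
  have hHH : H ≤ A * H ^ A := by
    calc H = H ^ 1 := (pow_one H).symm
      _ ≤ H ^ A := Nat.pow_le_pow_right hH hA1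
      _ ≤ A * H ^ A := Nat.le_mul_of_pos_left _ hA1
  have hsub : {s : ℤ | |s| ≤ (H : ℤ) ∧
      ¬ Good8 d B (fun i => MvPolynomial.eval (pt i₀ a s b) (F i))} ⊆
      {t : ℤ | |t| ≤ ((A * H ^ A : ℕ) : ℤ) ∧
        ¬ Good8 d B (fun i => ((sub i₀ a (F i)).map (MvPolynomial.eval b)).eval t)} := by
    rintro s ⟨hs1, hs2⟩
    refine ⟨hs1.trans (by exact_mod_cast hHH), ?_⟩
    have e : (fun i => ((sub i₀ a (F i)).map (MvPolynomial.eval b)).eval s) =
        fun i => MvPolynomial.eval (pt i₀ a s b) (F i) := by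
      funext i
      exact sb1 m i₀ a (F i) b s
    rw [e]
    exact hs2
  have hfin : {t : ℤ | |t| ≤ ((A * H ^ A : ℕ) : ℤ) ∧
        ¬ Good8 d B (fun i =>
          ((sub i₀ a (F i)).map (MvPolynomial.eval b)).eval t)}.Finite := by
    apply (Set.finite_Icc (-((A * H ^ A : ℕ) : ℤ)) ((A * H ^ A : ℕ) : ℤ)).subset
    rintro t ⟨ht, -⟩
    exact abs_le.1 ht
  have hcard := Set.ncard_le_ncard hsub hfin
  have hpow : (((A * H ^ A : ℕ) : ℝ)) ^ (δ / A) = (A : ℝ) ^ (δ / A) * (H : ℝ) ^ δ := by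
    have e : ((A * H ^ A : ℕ) : ℝ) = (A : ℝ) * (H : ℝ) ^ A := by push_cast; ring
    rw [e, Real.mul_rpow hApos.le (by positivity), ← Real.rpow_natCast (H : ℝ) A,
      ← Real.rpow_mul (by positivity)]
    rw [mul_div_cancel₀ δ hApos.ne']
  calc ({s : ℤ | |s| ≤ (H : ℤ) ∧
      ¬ Good8 d B (fun i => MvPolynomial.eval (pt i₀ a s b) (F i))}.ncard : ℝ)
      ≤ _ := by exact_mod_cast hcard
    _ ≤ C1 * (((A * H ^ A : ℕ) : ℝ)) ^ (δ / A) := hfam2
    _ = C1 * (A : ℝ) ^ (δ / A) * (H : ℝ) ^ δ := by rw [hpow, mul_assoc]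

end Pool.Agent.COV.H25
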